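import Mathlib

namespace Pool.Agent.Results.MP_76a7f5_an.Two

open Set

/-- `g x = x⁻¹ log ((3 + x) / (3 - x))`, `g 0 = 2 / 3`. -/
noncomputable def g (x : ℝ) : ℝ := if x = 0 then 2 / 3 else x⁻¹ * Real.log ((3 + x) / (3 - x))

/-- The energy `F_n`. -/
noncomputable def F (n : ℕ) (x : Fin n → ℝ) : ℝ :=
  1 / (n : ℝ) * ∑ i, ∑ j, 1 / (3 - x i * x j) - ∑ i, g (x i)

/-- The cube `[-1, 1]ⁿ`. -/
def cube (n : ℕ) : Set (Fin n → ℝ) := {x | ∀ i, x i ∈ Icc (-1 : ℝ) 1}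

theorem g_neg (x : ℝ) : g (-x) = g x := by
  unfold g
  by_cases h : x = 0
  · simp [h]
  · rw [if_neg h, if_neg (neg_ne_zero.2 h), ← sub_eq_add_neg, sub_neg_eq_add, ← inv_div (3 + x),
      Real.log_inv]
    simp

theorem g_cont : ContinuousOn g (Icc (-1) 1) := by
  have hd : ∀ x ∈ Icc (-1 : ℝ) 1, HasDerivAt (fun x => Real.log ((3 + x) / (3 - x)))
      ((1 * (3 - x) - (3 + x) * (-1)) / (3 - x) ^ 2 / ((3 + x) / (3 - x))) x := fun x hx => by
    have h1 : 0 < 3 - x := by linarith [hx.2]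
    have h2 : 0 < 3 + x := by linarith [hx.1]
    exact (((hasDerivAt_id' x).const_add 3).fun_div ((hasDerivAt_id' x).const_sub 3) h1.ne').log
      (div_pos h2 h1).ne'
  have e : g = dslope (fun x => Real.log ((3 + x) / (3 - x))) 0 := by
    funext x
    by_cases h : x = 0
    · rw [h, dslope_same, (hd 0 (by norm_num)).deriv]; norm_num [g]
    · rw [dslope_of_ne _ h, slope_def_field]; simp [g, h, div_eq_inv_mul]
  rw [e]
  exact (continuousOn_dslope (Icc_mem_nhds (by norm_num) (by norm_num))).2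
    ⟨fun x hx => (hd x hx).continuousAt.continuousWithinAt, (hd 0 (by norm_num)).differentiableAt⟩

theorem key (x : Fin 2 → ℝ) (hx : x ∈ cube 2) : ∃ c : ℝ, 0 < c ∧
    2 * F 2 x = F 2 ![x 0, -x 0] + F 2 ![x 1, -x 1] + c * (x 0 + x 1) ^ 2 := by
  obtain ⟨a1, a2⟩ := hx 0
  obtain ⟨b1, b2⟩ := hx 1
  have h1 : 0 < 3 - x 0 * x 1 := by nlinarith
  have h2 : 0 < 3 + x 0 * x 1 := by nlinarith
  have h3 : 0 < 3 - x 0 * x 0 := by nlinarith
  have h4 : 0 < 3 - x 1 * x 1 := by nlinarith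
  have h5 : 0 < 3 + x 0 * x 0 := by nlinarith
  have h6 : 0 < 3 + x 1 * x 1 := by nlinarith
  refine ⟨(3 + x 0 * x 1) / ((3 - x 0 * x 1) * (3 + x 0 * x 0) * (3 + x 1 * x 1)), by positivity, ?_⟩
  simp only [F, Fin.sum_univ_two, Matrix.cons_val_zero, Matrix.cons_val_one, g_neg, mul_neg, neg_mul,
    neg_neg, sub_neg_eq_add, mul_comm (x 1) (x 0), Nat.cast_ofNat]
  have e : (3 + x 0 * x 1) / ((3 - x 0 * x 1) * (3 + x 0 * x 0) * (3 + x 1 * x 1)) * (x 0 + x 1) ^ 2 =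
      2 * (1 / (3 - x 0 * x 1)) - 1 / (3 + x 0 * x 0) - 1 / (3 + x 1 * x 1) := by
    have := h1.ne'
    have := h5.ne'
    have := h6.ne'
    rw [div_mul_eq_mul_div, div_eq_iff (by positivity)]
    generalize hr : 3 - x 0 * x 1 = r at *
    field_simp
    rw [← hr]
    ring
  rw [e]
  ring

theorem result : (∃ a ∈ Icc (-1 : ℝ) 1, ∀ x ∈ cube 2, F 2 ![a, -a] ≤ F 2 x) ∧
    ∀ x ∈ cube 2, (∀ y ∈ cube 2, F 2 x ≤ F 2 y) → x 1 = -x 0 := by
  have hc : ContinuousOn (fun a : ℝ => F 2 ![a, -a]) (Icc (-1) 1) := by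
    simp only [F, Fin.sum_univ_two, Matrix.cons_val_zero, Matrix.cons_val_one, g_neg, mul_neg, neg_mul,
      neg_neg, sub_neg_eq_add]
    have h1 : ContinuousOn (fun a : ℝ => 1 / (3 - a * a)) (Icc (-1) 1) :=
      continuousOn_const.div (by fun_prop) fun a ha => by nlinarith [ha.1, ha.2]
    have h2 : ContinuousOn (fun a : ℝ => 1 / (3 + a * a)) (Icc (-1) 1) :=
      continuousOn_const.div (by fun_prop) fun a ha => by nlinarith [ha.1, ha.2]
    exact (continuousOn_const.mul ((h1.add h2).add (h2.add h1))).sub (g_cont.add g_cont)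
  obtain ⟨a, ha, hm⟩ := isCompact_Icc.exists_isMinOn ⟨0, by norm_num⟩ hc
  have sy : ∀ t ∈ Icc (-1 : ℝ) 1, ![t, -t] ∈ cube 2 := fun t ht i => by
    fin_cases i
    · exact ht
    · exact ⟨by simp [ht.2], by simp; linarith [ht.1]⟩
  refine ⟨⟨a, ha, fun x hx => ?_⟩, fun x hx h => ?_⟩
  · obtain ⟨c, c0, e⟩ := key x hx
    have h1 : F 2 ![a, -a] ≤ F 2 ![x 0, -x 0] := hm (hx 0)
    have h2 : F 2 ![a, -a] ≤ F 2 ![x 1, -x 1] := hm (hx 1)
    nlinarith [mul_nonneg c0.le (sq_nonneg (x 0 + x 1))]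
  · obtain ⟨c, c0, e⟩ := key x hx
    have h1 := h _ (sy _ (hx 0))
    have h2 := h _ (sy _ (hx 1))
    have h3 : (x 0 + x 1) ^ 2 ≤ 0 := by
      by_contra h4
      nlinarith [mul_pos c0 (not_le.1 h4)]
    have := pow_eq_zero_iff (two_ne_zero) |>.1 (le_antisymm h3 (sq_nonneg _))
    linarith

end Pool.Agent.Results.MP_76a7f5_an.Two
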